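import Mathlib

open Set Filter Topology Metric

noncomputable section
namespace Pool.Agent.R510.GK

lemma exists_AB {X : Type*} [TopologicalSpace X] [T1Space X] (hX : ∀ x : X, NeBot (𝓝[≠] x))
    {U : Set (Set X)} (hU : U.Finite) (hO : ∀ u ∈ U, IsOpen u ∧ u.Nonempty) :
    ∃ A B : Set X, A.Finite ∧ B.Finite ∧ Disjoint A B ∧ ∀ u ∈ U, (u ∩ A).Nonempty ∧ (u ∩ B).Nonempty := by
  induction U, hU using Set.Finite.induction_on with
  | empty => exact ⟨∅, ∅, finite_empty, finite_empty, by simp, by simp⟩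
  | @insert u U _ _ ih =>
    obtain ⟨A, B, hA, hB, hd, hAB⟩ := ih fun v hv => hO v (mem_insert_of_mem _ hv)
    obtain ⟨ho, hne⟩ := hO u (mem_insert _ _)
    obtain ⟨x, hx⟩ := hne
    haveI := hX x
    have hinf : u.Infinite := infinite_of_mem_nhds x (ho.mem_nhds hx)
    obtain ⟨p, hp, hp2⟩ := (hinf.diff (hA.union hB)).nonempty
    obtain ⟨r, hr, hr2⟩ := (hinf.diff ((hA.union hB).union (finite_singleton p))).nonempty
    simp only [mem_union, mem_singleton_iff, not_or] at hp2 hr2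
    refine ⟨insert p A, insert r B, hA.insert p, hB.insert r, ?_, ?_⟩
    · rw [Set.disjoint_left] at hd ⊢
      intro y hy1 hy2
      rcases mem_insert_iff.mp hy1 with h1 | h1 <;> rcases mem_insert_iff.mp hy2 with h2 | h2
      · exact hr2.2 (h2.symm.trans h1)
      · exact hp2.2 (h1 ▸ h2)
      · exact hr2.1.1 (h2 ▸ h1)
      · exact hd h1 h2
    · intro v hv
      rcases mem_insert_iff.mp hv with h1 | h1
      · subst h1
        exact ⟨⟨p, hp, mem_insert _ _⟩, ⟨r, hr, mem_insert _ _⟩⟩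
      · obtain ⟨⟨y, hy1, hy2⟩, ⟨z, hz1, hz2⟩⟩ := hAB v h1
        exact ⟨⟨y, hy1, mem_insert_of_mem _ hy2⟩, ⟨z, hz1, mem_insert_of_mem _ hz2⟩⟩

lemma neBot_of_preperfect {K : Type*} [TopologicalSpace K] {P : Set K} (hP : Preperfect P) (p : P) :
    NeBot (𝓝[≠] p) := by
  rw [← mem_closure_iff_nhdsWithin_neBot, mem_closure_iff_nhds]
  intro t ht
  obtain ⟨u, hu, hut⟩ := mem_nhds_subtype P p t |>.mp ht
  obtain ⟨y, ⟨hyu, hyP⟩, hne⟩ := preperfect_iff_nhds.mp hP p p.2 u hu
  exact ⟨⟨y, hyP⟩, hut hyu, fun h => hne (congrArg Subtype.val h)⟩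

/-- An almost `ℓ₁`-orthogonal direction to a finite-dimensional subspace. -/
theorem orth {K : Type*} [TopologicalSpace K] [CompactSpace K] [T2Space K] {P : Set K}
    (hPc : IsClosed P) (hP : Preperfect P) (hne : P.Nonempty) [CompactSpace P]
    (V : Submodule ℝ C(P, ℝ)) [FiniteDimensional ℝ V] {β : ℝ} (hβ : 0 < β) (hβ1 : β < 1) :
    ∃ y : C(K, ℝ), (∀ x, |y x| ≤ 1) ∧
      ∀ v ∈ V, ∀ t : ℝ, ∃ p : P, (1 - β) * (‖v‖ + |t|) ≤ |v p + t * y p| := by
  haveI : ProperSpace V := FiniteDimensional.proper ℝ V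
  obtain ⟨T, hTs, hTf, hTc⟩ := (isCompact_sphere (0 : V) 1).finite_cover_balls (half_pos hβ)
  -- the sign and the open set
  have hsign : ∀ w : V, w ∈ T → ∃ σ : ℝ, (σ = 1 ∨ σ = -1) ∧ {p : P | 1 - β / 2 < σ * (w : C(P, ℝ)) p}.Nonempty := by
    intro w hw
    have hn : ‖(w : C(P, ℝ))‖ = 1 := by
      have := hTs hw
      simpa using this
    have : ∃ p : P, 1 - β / 2 < |(w : C(P, ℝ)) p| := by
      by_contra hcon
      push Not at hcon
      have : ‖(w : C(P, ℝ))‖ ≤ 1 - β / 2 := by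
        rw [ContinuousMap.norm_le _ (by linarith)]
        exact hcon
      linarith
    obtain ⟨p, hp⟩ := this
    rcases lt_abs.mp hp with h | h
    · exact ⟨1, Or.inl rfl, p, by simpa using h⟩
    · exact ⟨-1, Or.inr rfl, p, by simpa using h⟩
  choose! σ hσ1 hσ2 using hsign
  set O : V → Set P := fun w => {p : P | 1 - β / 2 < σ w * (w : C(P, ℝ)) p} with hO
  have hUf : (insert (univ : Set P) (O '' T)).Finite := (hTf.image O).insert _
  obtain ⟨p0, hp0⟩ := hne
  obtain ⟨A, B, hA, hB, hd, hAB⟩ := exists_AB (neBot_of_preperfect hP) hUf (by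
    intro u hu
    rcases mem_insert_iff.mp hu with h | ⟨w, hw, rfl⟩
    · rw [h]; exact ⟨isOpen_univ, ⟨⟨p0, hp0⟩, trivial⟩⟩
    · exact ⟨isOpen_lt continuous_const (by fun_prop), hσ2 w hw⟩)
  have hAc : IsClosed (Subtype.val '' A : Set K) := (hA.image _).isClosed
  have hBc : IsClosed (Subtype.val '' B : Set K) := (hB.image _).isClosed
  have hdK : Disjoint (Subtype.val '' A : Set K) (Subtype.val '' B) := by
    rw [Set.disjoint_image_iff Subtype.val_injective]; exact hd
  obtain ⟨f, hf0, hf1, hf⟩ := exists_continuous_zero_one_of_isClosed hAc hBc hdK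
  set y : C(K, ℝ) := ⟨fun x => 1 - 2 * f x, by fun_prop⟩ with hy
  have hyA : ∀ p ∈ A, y (p : K) = 1 := by
    intro p hp
    have : f (p : K) = 0 := hf0 ⟨p, hp, rfl⟩
    simp [hy, this]
  have hyB : ∀ p ∈ B, y (p : K) = -1 := by
    intro p hp
    have : f (p : K) = 1 := hf1 ⟨p, hp, rfl⟩
    simp [hy, this]; norm_num
  refine ⟨y, fun x => ?_, fun v hv t => ?_⟩
  · have := hf x
    simp only [hy, ContinuousMap.coe_mk]
    rw [abs_le]; constructor <;> linarith [this.1, this.2]
  · by_cases hv0 : v = 0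
    · obtain ⟨⟨p, _, hpA⟩, _⟩ := hAB univ (mem_insert _ _)
      refine ⟨p, ?_⟩
      rw [hv0, hyA p hpA]
      simp
      nlinarith [abs_nonneg t]
    · have hvn : 0 < ‖v‖ := norm_pos_iff.mpr hv0
      set w : V := ⟨(‖v‖)⁻¹ • v, V.smul_mem _ hv⟩ with hw
      have hws : w ∈ sphere (0 : V) 1 := by
        rw [mem_sphere_zero_iff_norm]
        show ‖(‖v‖)⁻¹ • v‖ = 1
        rw [norm_smul, norm_inv, norm_norm, inv_mul_cancel₀ hvn.ne']
      obtain ⟨w', hw'T, hw'⟩ := mem_iUnion₂.mp (hTc hws)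
      have hclose : ∀ p : P, |(‖v‖)⁻¹ * v p - (w' : C(P, ℝ)) p| < β / 2 := by
        intro p
        have h1 : ‖(w : C(P, ℝ)) - (w' : C(P, ℝ))‖ < β / 2 := by
          have : dist w w' < β / 2 := hw'
          rw [dist_eq_norm] at this
          exact this
        have h2 := ((w : C(P, ℝ)) - (w' : C(P, ℝ))).norm_coe_le_norm p
        exact lt_of_le_of_lt h2 h1
      obtain ⟨⟨p, hpO, hpA⟩, ⟨r, hrO, hrB⟩⟩ := hAB (O w') (mem_insert_of_mem _ ⟨w', hw'T, rfl⟩)
      have hval : ∀ p : P, p ∈ O w' → (1 - β) * ‖v‖ ≤ σ w' * v p := by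
        intro p hp
        have h1 : 1 - β / 2 < σ w' * (w' : C(P, ℝ)) p := hp
        have h2 := abs_lt.mp (hclose p)
        have h3 : 1 - β < σ w' * ((‖v‖)⁻¹ * v p) := by
          rcases hσ1 w' hw'T with h | h <;> rw [h] at h1 ⊢ <;> linarith [h2.1, h2.2]
        have h4 : σ w' * v p = ‖v‖ * (σ w' * ((‖v‖)⁻¹ * v p)) := by
          field_simp
        rw [h4]
        nlinarith
      rcases le_or_gt 0 (σ w' * t) with hs | hs
      · refine ⟨p, ?_⟩
        rw [hyA p hpA, mul_one]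
        have h1 := hval p hpO
        have h2 : σ w' * t = |t| := by
          rcases hσ1 w' hw'T with h | h
          · rw [h, one_mul] at hs ⊢; exact (abs_of_nonneg hs).symm
          · rw [h, neg_one_mul] at hs ⊢; exact (abs_of_nonpos (by linarith)).symm
        have h3 : σ w' * (v p + t) ≤ |v p + t| := by
          rcases hσ1 w' hw'T with h | h
          · rw [h, one_mul]; exact le_abs_self _
          · rw [h, neg_one_mul]; exact neg_le_abs _
        rw [mul_add, h2] at h3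
        nlinarith [abs_nonneg t]
      · refine ⟨r, ?_⟩
        rw [hyB r hrB]
        have h1 := hval r hrO
        have h2 : -(σ w' * t) = |t| := by
          rcases hσ1 w' hw'T with h | h
          · rw [h, one_mul] at hs ⊢; exact (abs_of_neg hs).symm
          · rw [h, neg_one_mul] at hs ⊢; rw [neg_neg]; exact (abs_of_pos (by linarith)).symm
        have h3 : σ w' * (v r + t * -1) ≤ |v r + t * -1| := by
          rcases hσ1 w' hw'T with h | h
          · rw [h, one_mul]; exact le_abs_self _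
          · rw [h, neg_one_mul]; exact neg_le_abs _
        have h4 : σ w' * (v r + t * -1) = σ w' * v r + -(σ w' * t) := by ring
        rw [h4, h2] at h3
        nlinarith [abs_nonneg t]

end Pool.Agent.R510.GK
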