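import Mathlib

open Set Filter Topology

noncomputable section
namespace Pool.Agent.R510.GK

/-- rounding to even integers with thresholds `± (2n + t)` -/
def q (t s : ℝ) : ℝ := (if 0 ≤ s then 1 else -1) * (2 * (⌈(|s| - t) / 2⌉₊ : ℝ))

lemma q_int (t s : ℝ) : ∃ n : ℤ, q t s = 2 * n := by
  unfold q
  split_ifs
  · exact ⟨⌈(|s| - t) / 2⌉₊, by push_cast; ring⟩
  · exact ⟨-(⌈(|s| - t) / 2⌉₊ : ℤ), by push_cast; ring⟩

lemma q_zero {t s : ℝ} (h : |s| ≤ t) : q t s = 0 := by
  unfold q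
  have : ⌈(|s| - t) / 2⌉₊ = 0 := Nat.ceil_eq_zero.mpr (by linarith)
  rw [this]; simp

lemma q_near {t : ℝ} (ht : 1 ≤ t) (s : ℝ) : |s - q t s| ≤ t := by
  by_cases h : |s| ≤ t
  · rw [q_zero h, sub_zero]; exact h
  · push Not at h
    set n := ⌈(|s| - t) / 2⌉₊ with hn
    have hpos : 0 < (|s| - t) / 2 := by linarith
    have h1 : (|s| - t) / 2 ≤ n := Nat.le_ceil _
    have h2 : (n : ℝ) < (|s| - t) / 2 + 1 := Nat.ceil_lt_add_one hpos.le
    unfold q
    rw [← hn]
    split_ifs with h0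
    · rw [abs_of_nonneg h0] at h1 h2
      rw [abs_le]; constructor <;> linarith
    · rw [abs_of_neg (not_le.mp h0)] at h1 h2
      rw [abs_le]; constructor <;> linarith

lemma q_loc {t s : ℝ} (ht : 1 ≤ t) (h : ∀ n : ℕ, |s| ≠ 2 * n + t) : ∀ᶠ s' in 𝓝 s, q t s' = q t s := by
  set n := ⌈(|s| - t) / 2⌉₊ with hn
  have hc : Continuous fun s : ℝ => (|s| - t) / 2 := by fun_prop
  rcases Nat.eq_zero_or_pos n with h0 | h0
  · have h1 : |s| < t := by
      have h2 := Nat.ceil_eq_zero.mp (hn.symm.trans h0)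
      have h3 := h 0
      simp at h3
      exact lt_of_le_of_ne (by linarith) h3
    have : ∀ᶠ s' in 𝓝 s, |s'| < t := continuous_abs.continuousAt.eventually_lt continuousAt_const h1
    filter_upwards [this] with s' hs'
    rw [q_zero hs'.le, q_zero h1.le]
  · have h1 : (|s| - t) / 2 < n := by
      refine lt_of_le_of_ne (Nat.le_ceil _) fun he => h n ?_
      linarith
    have h2 : (n : ℝ) - 1 < (|s| - t) / 2 := by
      have : 0 < (|s| - t) / 2 := by
        by_contra hc
        push Not at hc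
        have := Nat.ceil_eq_zero.mpr hc
        omega
      have := Nat.ceil_lt_add_one this.le
      rw [← hn] at this
      linarith
    have e1 : ∀ᶠ s' in 𝓝 s, (|s'| - t) / 2 < n :=
      hc.continuousAt.eventually_lt continuousAt_const h1
    have e2 : ∀ᶠ s' in 𝓝 s, (n : ℝ) - 1 < (|s'| - t) / 2 :=
      continuousAt_const.eventually_lt hc.continuousAt h2
    have hs0 : s ≠ 0 := by
      intro hs
      rw [hs, abs_zero] at h2
      have : (1:ℝ) ≤ n := by exact_mod_cast h0
      linarith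
    have e3 : ∀ᶠ s' in 𝓝 s, (0 ≤ s' ↔ 0 ≤ s) := by
      rcases lt_or_gt_of_ne hs0 with hneg | hpos
      · filter_upwards [eventually_lt_nhds hneg] with s' hs'
        exact ⟨fun h => absurd h (not_le.mpr hs'), fun h => absurd h (not_le.mpr hneg)⟩
      · filter_upwards [eventually_gt_nhds hpos] with s' hs'
        exact ⟨fun _ => hpos.le, fun _ => le_of_lt hs'⟩
    filter_upwards [e1, e2, e3] with s' h1' h2' h3'
    have hk : ⌈(|s'| - t) / 2⌉₊ = n := by
      rw [Nat.ceil_eq_iff (by omega)]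
      refine ⟨?_, h1'.le⟩
      have : ((n - 1 : ℕ) : ℝ) = (n : ℝ) - 1 := by
        rw [Nat.cast_sub h0]; simp
      rw [this]; exact h2'
    unfold q
    rw [hk, ← hn]
    simp only [h3']

/-- Rounding a continuous function off a closed set. -/
theorem round {K : Type*} [TopologicalSpace K] [CompactSpace K] {P : Set K} (hP : IsClosed P)
    (hcount : ∀ (h : C(K, ℝ)) (C : Set K), IsClosed C → C ⊆ Pᶜ → (h '' C).Countable)
    (h : C(K, ℝ)) {a : ℝ} (ha : 0 < a) (hh : ∀ x ∈ P, |h x| < 1 + a) :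
    ∃ e : C(K, ℝ), (∀ x ∈ P, e x = 0) ∧ (∀ x, ∃ n : ℤ, e x = 2 * n) ∧ ∀ x, |h x - e x| ≤ 1 + a := by
  obtain ⟨m, hm1, hm2, hm⟩ : ∃ m : ℝ, 1 ≤ m ∧ m < 1 + a ∧ ∀ x ∈ P, |h x| ≤ m := by
    rcases P.eq_empty_or_nonempty with hP0 | hP0
    · exact ⟨1, le_rfl, by linarith, by simp [hP0]⟩
    · obtain ⟨x0, hx0, hmax⟩ := hP.isCompact.exists_isMaxOn hP0
        (f := fun x => |h x|) (by fun_prop)
      exact ⟨max 1 |h x0|, le_max_left _ _, max_lt (by linarith) (hh x0 hx0),
        fun x hx => (hmax hx).trans (le_max_right _ _)⟩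
  set m' := (m + (1 + a)) / 2 with hm'
  set C : Set K := {x | m' ≤ |h x|} with hC
  have hCc : IsClosed C := isClosed_le continuous_const (by fun_prop)
  have hCP : C ⊆ Pᶜ := by
    intro x hx hxP
    have := hm x hxP
    have hx' : m' ≤ |h x| := hx
    linarith
  have hT : (⋃ n : ℕ, (fun s : ℝ => |s| - 2 * n) '' (h '' C)).Countable :=
    countable_iUnion fun n => (hcount h C hCc hCP).image _
  obtain ⟨t, htT, ht1, ht2⟩ := (hT.dense_compl ℝ).exists_between (by linarith : m' < 1 + a)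
  have hne : ∀ x : K, ∀ n : ℕ, |h x| ≠ 2 * n + t := by
    intro x n hx
    apply htT
    rw [mem_iUnion]
    refine ⟨n, h x, ⟨x, ?_, rfl⟩, ?_⟩
    · show m' ≤ |h x|
      rw [hx]
      have : (0:ℝ) ≤ n := Nat.cast_nonneg n
      linarith
    · simp only [hx]; ring
  have ht : 1 ≤ t := by linarith
  have hcont : Continuous fun x => q t (h x) := by
    rw [continuous_iff_continuousAt]
    intro x
    have : (fun x => q t (h x)) =ᶠ[𝓝 x] fun _ => q t (h x) :=
      (h.continuous.tendsto x).eventually (q_loc ht (hne x))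
    exact continuousAt_const.congr this.symm
  refine ⟨⟨fun x => q t (h x), hcont⟩, fun x hx => ?_, fun x => q_int t _, fun x => ?_⟩
  · exact q_zero ((hm x hx).trans (by linarith))
  · exact (q_near ht (h x)).trans (by linarith)

end Pool.Agent.R510.GK
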