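import Mathlib

open Set Filter Topology Metric

namespace Pool.Agent.R510.GK

/-- A continuous real function on a compact scattered set takes only countably many values. -/
theorem image_countable {K : Type*} [TopologicalSpace K] [CompactSpace K] [T2Space K] {C : Set K}
    (hC : IsClosed C) (hsc : ∀ A ⊆ C, A.Nonempty → ¬ Preperfect A) (h : C(K, ℝ)) :
    (h '' C).Countable := by
  by_contra hunc
  have hYc : IsClosed (h '' C) := (hC.isCompact.image h.continuous).isClosed
  obtain ⟨D, hD, hDne, hDY⟩ := exists_perfect_nonempty_of_isClosed_of_not_countable hYc hunc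
  obtain ⟨F, hF⟩ := zorn_superset {F : Set K | IsClosed F ∧ F ⊆ C ∧ D ⊆ h '' F} (by
    intro c hc hch
    rcases c.eq_empty_or_nonempty with hc0 | hcne
    · exact ⟨C, ⟨hC, le_rfl, hDY⟩, by simp [hc0]⟩
    · refine ⟨⋂₀ c, ⟨isClosed_sInter fun F hF => (hc hF).1, ?_, ?_⟩, fun s hs => sInter_subset_of_mem hs⟩
      · obtain ⟨F, hF⟩ := hcne
        exact (sInter_subset_of_mem hF).trans (hc hF).2.1
      · intro y hy
        have : Nonempty c := hcne.to_subtype
        have hne : (⋂ F : c, (F : Set K) ∩ h ⁻¹' {y}).Nonempty := by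
          apply IsCompact.nonempty_iInter_of_directed_nonempty_isCompact_isClosed
          · intro F G
            rcases hch.total F.2 G.2 with h1 | h1
            · exact ⟨F, le_rfl, inter_subset_inter_left _ h1⟩
            · exact ⟨G, inter_subset_inter_left _ h1, le_rfl⟩
          · intro F
            obtain ⟨x, hx, hxy⟩ := (hc F.2).2.2 hy
            exact ⟨x, hx, hxy⟩
          · intro F
            exact ((hc F.2).1.inter (isClosed_singleton.preimage h.continuous)).isCompact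
          · intro F
            exact (hc F.2).1.inter (isClosed_singleton.preimage h.continuous)
        obtain ⟨x, hx⟩ := hne
        rw [mem_iInter] at hx
        refine ⟨x, fun F hF => (hx ⟨F, hF⟩).1, (hx ⟨_, hcne.some_mem⟩).2⟩)
  obtain ⟨hFc, hFC, hDF⟩ := hF.prop
  have hFne : F.Nonempty := by
    obtain ⟨y, hy⟩ := hDne
    obtain ⟨x, hx, _⟩ := hDF hy
    exact ⟨x, hx⟩
  have hnp := hsc F hFC hFne
  rw [preperfect_iff_nhds] at hnp
  push Not at hnp
  obtain ⟨x, hxF, U, hU, hUx⟩ := hnp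
  obtain ⟨O, hOU, hO, hxO⟩ := mem_nhds_iff.mp hU
  have hF'c : IsClosed (F ∩ Oᶜ) := hFc.inter hO.isClosed_compl
  have hnot : ¬ D ⊆ h '' (F ∩ Oᶜ) := by
    intro hsub
    have := hF.le_of_le (y := F ∩ Oᶜ) ⟨hF'c, inter_subset_left.trans hFC, hsub⟩ inter_subset_left
    exact (this hxF).2 hxO
  obtain ⟨y0, hy0D, hy0⟩ := not_subset.mp hnot
  obtain ⟨z0, hz0F, hz0⟩ := hDF hy0D
  have hz0x : z0 = x := by
    by_contra hne
    apply hy0
    refine ⟨z0, ⟨hz0F, fun hzO => hne ?_⟩, hz0⟩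
    exact hUx z0 ⟨hOU hzO, hz0F⟩
  have himc : IsClosed (h '' (F ∩ Oᶜ)) := (hF'c.isCompact.image h.continuous).isClosed
  obtain ⟨y, ⟨hy1, hyD⟩, hyne⟩ := preperfect_iff_nhds.mp hD.acc y0 hy0D _ (himc.isOpen_compl.mem_nhds hy0)
  apply hy1
  obtain ⟨z, hzF, hz⟩ := hDF hyD
  refine ⟨z, ⟨hzF, fun hzO => hyne ?_⟩, hz⟩
  have hzx : z = x := hUx z ⟨hOU hzO, hzF⟩
  rw [← hz, ← hz0, hzx, hz0x]

end Pool.Agent.R510.GK
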