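import Pool.Agent.R510.GK.Round
import Pool.Agent.R510.GK.Orth

open Set Filter Topology Metric

noncomputable section
namespace Pool.Agent.R510.GK

variable {K : Type*} [TopologicalSpace K] [CompactSpace K] [T2Space K] {P : Set K}

/-- the nonzero elements have absolute value at least two somewhere on `P` -/
def Sep (P : Set K) (G : AddSubgroup C(K, ℝ)) : Prop := ∀ g ∈ G, g ≠ 0 → ∃ p ∈ P, 2 ≤ |g p|

/-- contained in a finite-dimensional subspace -/
def FD (G : AddSubgroup C(K, ℝ)) : Prop :=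
  ∃ W : Submodule ℝ C(K, ℝ), FiniteDimensional ℝ W ∧ ∀ g ∈ G, g ∈ W

/-- restriction to `P` -/
def R (P : Set K) : C(K, ℝ) →ₗ[ℝ] C(P, ℝ) where
  toFun w := w.restrict P
  map_add' _ _ := rfl
  map_smul' _ _ := rfl

lemma R_apply (P : Set K) (w : C(K, ℝ)) (p : P) : R P w p = w p := rfl

theorem step (hPc : IsClosed P) (hP : Preperfect P) (hne : P.Nonempty) {b : ℝ} (hb : 0 < b)
    (G : AddSubgroup C(K, ℝ)) (hS : Sep P G) (hF : FD G) (f : C(K, ℝ)) :
    ∃ G' : AddSubgroup C(K, ℝ), G ≤ G' ∧ Sep P G' ∧ FD G' ∧ ∃ d ∈ G', ∀ p ∈ P, |f p - d p| ≤ 1 + b := by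
  by_cases hcon : ∃ d ∈ G, ∀ p ∈ P, |f p - d p| ≤ 1 + b
  · exact ⟨G, le_rfl, hS, hF, hcon⟩
  push Not at hcon
  have : CompactSpace P := isCompact_iff_compactSpace.mp hPc.isCompact
  obtain ⟨W, hW, hGW⟩ := hF
  set W' : Submodule ℝ C(K, ℝ) := W ⊔ Submodule.span ℝ {f} with hW'
  have hW'f : FiniteDimensional ℝ W' := Submodule.finiteDimensional_sup _ _
  set V : Submodule ℝ C(P, ℝ) := W'.map (R P) with hV
  have hVf : FiniteDimensional ℝ V := inferInstance
  set β : ℝ := b / (1 + b) with hβ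
  have hb1 : 0 < 1 + b := by linarith
  have hβ0 : 0 < β := div_pos hb hb1
  have hβ1 : β < 1 := by rw [hβ, div_lt_one hb1]; linarith
  have hβ2 : 1 - β = 1 / (1 + b) := by rw [hβ]; field_simp; ring
  obtain ⟨y, hy1, hy2⟩ := orth hPc hP hne V hβ0 hβ1
  set g : C(K, ℝ) := f + (1 + b) • y with hg
  have hgx : ∀ x, g x = f x + (1 + b) * y x := fun x => rfl
  refine ⟨G ⊔ AddSubgroup.zmultiples g, le_sup_left, ?_, ?_, g,
    AddSubgroup.mem_sup_right (AddSubgroup.mem_zmultiples g), ?_⟩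
  · intro z hz hz0
    obtain ⟨d, hd, e, he, rfl⟩ := AddSubgroup.mem_sup.mp hz
    obtain ⟨n, rfl⟩ := AddSubgroup.mem_zmultiples_iff.mp he
    by_cases hn : n = 0
    · subst hn
      simp only [zero_smul, add_zero] at hz0 ⊢
      exact hS d hd hz0
    · set w : C(K, ℝ) := d + (n : ℝ) • f with hw
      have hwx : ∀ x, w x = d x + n * f x := fun x => rfl
      have hwW : w ∈ W' := by
        apply Submodule.add_mem
        · exact Submodule.mem_sup_left (hGW d hd)
        · exact Submodule.smul_mem _ _ (Submodule.mem_sup_right (Submodule.mem_span_singleton_self f))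
      obtain ⟨p, hp⟩ := hy2 (R P w) ⟨w, hwW, rfl⟩ (n * (1 + b))
      refine ⟨p, p.2, ?_⟩
      have hzp : (d + n • g) (p : K) = w p + n * (1 + b) * y p := by
        have : (n • g) (p : K) = (n : ℝ) * g p := by
          rw [ContinuousMap.coe_zsmul, Pi.smul_apply, zsmul_eq_mul]
        rw [ContinuousMap.add_apply, this, hwx, hgx]; ring
      rw [hzp]
      rw [R_apply] at hp
      refine le_trans ?_ hp
      rw [abs_mul, abs_of_pos hb1, hβ2, one_div_mul_eq_div, le_div_iff₀ hb1]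
      have hn1 : (1:ℝ) ≤ |(n:ℝ)| := by
        rw [← Int.cast_abs]
        exact_mod_cast Int.one_le_abs hn
      by_cases hn2 : |(n:ℝ)| = 1
      · -- |n| = 1
        have hnsq : (n:ℝ) * n = 1 := by
          have := abs_mul_abs_self (n:ℝ)
          rw [hn2] at this; linarith
        obtain ⟨p', hp', hlt⟩ := hcon (-(n • d)) (G.neg_mem (G.zsmul_mem hd n))
        have h1 : |w p'| = |f p' - (-(n • d)) p'| := by
          have e1 : (-(n • d)) p' = -((n:ℝ) * d p') := by
            rw [ContinuousMap.neg_apply, ContinuousMap.coe_zsmul, Pi.smul_apply, zsmul_eq_mul]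
          rw [e1]
          have e2 : w p' = n * (f p' - -((n:ℝ) * d p')) := by
            rw [hwx]
            have : (n:ℝ) * (f p' - -((n:ℝ) * d p')) = n * f p' + (n * n) * d p' := by ring
            rw [this, hnsq]; ring
          rw [e2, abs_mul, hn2, one_mul]
        have h2 : 1 + b < ‖R P w‖ := by
          refine lt_of_lt_of_le (hlt.trans_eq h1.symm) ?_
          exact (R P w).norm_coe_le_norm ⟨p', hp'⟩
        rw [hn2]; linarith
      · have hn3 : (2:ℝ) ≤ |(n:ℝ)| := by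
          rw [← Int.cast_abs] at hn1 hn2 ⊢
          have h1 : (1:ℤ) ≤ |n| := by exact_mod_cast hn1
          have h2 : |n| ≠ 1 := by exact_mod_cast hn2
          have : (2:ℤ) ≤ |n| := by omega
          exact_mod_cast this
        have := norm_nonneg (R P w)
        nlinarith
  · refine ⟨W' ⊔ Submodule.span ℝ {g}, Submodule.finiteDimensional_sup _ _, fun z hz => ?_⟩
    obtain ⟨d, hd, e, he, rfl⟩ := AddSubgroup.mem_sup.mp hz
    obtain ⟨n, rfl⟩ := AddSubgroup.mem_zmultiples_iff.mp he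
    apply Submodule.add_mem
    · exact Submodule.mem_sup_left (Submodule.mem_sup_left (hGW d hd))
    · rw [← Int.cast_smul_eq_zsmul ℝ]
      exact Submodule.smul_mem _ _ (Submodule.mem_sup_right (Submodule.mem_span_singleton_self g))
  · intro p _
    rw [hgx]
    have := hy1 p
    have e : f p - (f p + (1 + b) * y p) = -((1 + b) * y p) := by ring
    rw [e, abs_neg, abs_mul, abs_of_pos hb1]
    nlinarith

/-- the subgroup for the perfect part -/
theorem perfect_part (hPc : IsClosed P) (hP : Preperfect P) (hsep : TopologicalSpace.SeparableSpace C(P, ℝ))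
    {a : ℝ} (ha : 0 < a) :
    ∃ G : AddSubgroup C(K, ℝ), Sep P G ∧ ∀ f : C(K, ℝ), ∃ d ∈ G, ∀ p ∈ P, |f p - d p| < 1 + a := by
  rcases P.eq_empty_or_nonempty with hP0 | hne
  · refine ⟨⊥, fun g hg hg0 => absurd (AddSubgroup.mem_bot.mp hg) hg0, fun f => ⟨0, AddSubgroup.zero_mem _, ?_⟩⟩
    simp [hP0]
  have : CompactSpace P := isCompact_iff_compactSpace.mp hPc.isCompact
  have hlift : ∀ v : C(P, ℝ), ∃ w : C(K, ℝ), w.restrict P = v := fun v => v.exists_restrict_eq hPc
  choose lift hl using hlift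
  set x : ℕ → C(K, ℝ) := fun n => lift (TopologicalSpace.denseSeq C(P, ℝ) n) with hx
  let St := {G : AddSubgroup C(K, ℝ) // Sep P G ∧ FD G}
  have hstep : ∀ (n : ℕ) (G : St), ∃ G' : St, G.1 ≤ G'.1 ∧
      ∃ d ∈ G'.1, ∀ p ∈ P, |x n p - d p| ≤ 1 + a / 2 := by
    intro n G
    obtain ⟨G', h1, h2, h3, h4⟩ := step hPc hP hne (half_pos ha) G.1 G.2.1 G.2.2 (x n)
    exact ⟨⟨G', h2, h3⟩, h1, h4⟩
  choose nxt hn1 hn2 using hstep
  have hbot : Sep P (⊥ : AddSubgroup C(K, ℝ)) ∧ FD (⊥ : AddSubgroup C(K, ℝ)) := by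
    refine ⟨fun g hg hg0 => absurd (AddSubgroup.mem_bot.mp hg) hg0, ⊥, inferInstance, fun g hg => ?_⟩
    rw [AddSubgroup.mem_bot.mp hg]; exact Submodule.zero_mem _
  let s : ℕ → St := fun n => Nat.rec ⟨⊥, hbot⟩ nxt n
  have hs : ∀ n, s (n + 1) = nxt n (s n) := fun n => rfl
  have hmono : Monotone fun n => (s n).1 := monotone_nat_of_le_succ fun n => by
    rw [hs]; exact hn1 n (s n)
  refine ⟨⨆ n, (s n).1, ?_, fun f => ?_⟩
  · intro g hg hg0
    obtain ⟨n, hn⟩ := (AddSubgroup.mem_iSup_of_directed hmono.directed_le).mp hg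
    exact (s n).2.1 g hn hg0
  · obtain ⟨n, hn⟩ := (TopologicalSpace.denseRange_denseSeq C(P, ℝ)).exists_dist_lt (f.restrict P) (half_pos ha)
    obtain ⟨d, hd, hdp⟩ := hn2 n (s n)
    refine ⟨d, AddSubgroup.mem_iSup_of_mem (n + 1) (by rw [hs]; exact hd), fun p hp => ?_⟩
    have h1 : |f p - x n p| < a / 2 := by
      have h2 := ContinuousMap.dist_apply_le_dist (f := f.restrict P)
        (g := TopologicalSpace.denseSeq C(P, ℝ) n) ⟨p, hp⟩
      have h3 : x n p = TopologicalSpace.denseSeq C(P, ℝ) n ⟨p, hp⟩ := by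
        have := congrArg (fun w : C(P, ℝ) => w ⟨p, hp⟩) (hl (TopologicalSpace.denseSeq C(P, ℝ) n))
        exact this
      rw [h3, ← Real.dist_eq]
      exact lt_of_le_of_lt h2 hn
    have h4 := hdp p hp
    calc |f p - d p| = |(f p - x n p) + (x n p - d p)| := by ring_nf
      _ ≤ |f p - x n p| + |x n p - d p| := abs_add_le _ _
      _ < 1 + a := by linarith

/-- continuous functions with even values, vanishing on `P` -/
def Ev (P : Set K) : AddSubgroup C(K, ℝ) where
  carrier := {e | (∀ x ∈ P, e x = 0) ∧ ∀ x, ∃ n : ℤ, e x = 2 * n}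
  zero_mem' := ⟨fun _ _ => rfl, fun _ => ⟨0, by simp⟩⟩
  add_mem' := by
    rintro e e' ⟨h1, h2⟩ ⟨h3, h4⟩
    refine ⟨fun x hx => ?_, fun x => ?_⟩
    · rw [ContinuousMap.add_apply, h1 x hx, h3 x hx, add_zero]
    · obtain ⟨n, hn⟩ := h2 x
      obtain ⟨m, hm⟩ := h4 x
      exact ⟨n + m, by rw [ContinuousMap.add_apply, hn, hm]; push_cast; ring⟩
  neg_mem' := by
    rintro e ⟨h1, h2⟩
    refine ⟨fun x hx => ?_, fun x => ?_⟩
    · rw [ContinuousMap.neg_apply, h1 x hx, neg_zero]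
    · obtain ⟨n, hn⟩ := h2 x
      exact ⟨-n, by rw [ContinuousMap.neg_apply, hn]; push_cast; ring⟩

theorem lattice_exists (hPc : IsClosed P) (hP : Preperfect P)
    (hsep : TopologicalSpace.SeparableSpace C(P, ℝ))
    (hcount : ∀ (h : C(K, ℝ)) (C : Set K), IsClosed C → C ⊆ Pᶜ → (h '' C).Countable)
    {a : ℝ} (ha : 0 < a) :
    ∃ D : AddSubgroup C(K, ℝ), (∀ f : C(K, ℝ), ∃ d ∈ D, ‖f - d‖ ≤ 1 + a) ∧
      ∀ d ∈ D, d ≠ 0 → 2 ≤ ‖d‖ := by
  obtain ⟨G, hG1, hG2⟩ := perfect_part hPc hP hsep ha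
  refine ⟨G ⊔ Ev P, fun f => ?_, fun z hz hz0 => ?_⟩
  · obtain ⟨d, hd, hdp⟩ := hG2 f
    obtain ⟨e, he1, he2, he3⟩ := round hPc hcount (f - d) ha hdp
    refine ⟨d + e, AddSubgroup.add_mem _ (AddSubgroup.mem_sup_left hd)
      (AddSubgroup.mem_sup_right ⟨he1, he2⟩), ?_⟩
    rw [ContinuousMap.norm_le _ (by linarith)]
    intro x
    have := he3 x
    rw [ContinuousMap.sub_apply] at this
    rw [ContinuousMap.sub_apply, ContinuousMap.add_apply, Real.norm_eq_abs]
    rwa [sub_sub] at this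
  · obtain ⟨d, hd, e, he, rfl⟩ := AddSubgroup.mem_sup.mp hz
    by_cases hd0 : d = 0
    · subst hd0
      rw [zero_add] at hz0 ⊢
      obtain ⟨x, hx⟩ : ∃ x, e x ≠ 0 := by
        by_contra hcon
        push Not at hcon
        exact hz0 (ContinuousMap.ext hcon)
      obtain ⟨n, hn⟩ := he.2 x
      refine le_trans ?_ (e.norm_coe_le_norm x)
      rw [Real.norm_eq_abs, hn, abs_mul, abs_two]
      have hn0 : n ≠ 0 := by rintro rfl; simp at hn; exact hx hn
      have : (1:ℝ) ≤ |(n:ℝ)| := by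
        rw [← Int.cast_abs]; exact_mod_cast Int.one_le_abs hn0
      linarith
    · obtain ⟨p, hp, h2⟩ := hG1 d hd hd0
      refine le_trans ?_ ((d + e).norm_coe_le_norm p)
      rw [ContinuousMap.add_apply, he.1 p hp, add_zero]
      exact h2

end Pool.Agent.R510.GK
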